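import Mathlib

/-!
# Project ring: (MP_70a088_an, rational maps): DESCENT of a relation by one return map (helper8, after helper39)

`f : ℂ → ℂ` is any function such that the finitely many iterates in question are holomorphic on the disc `ball x ρ`. `g = f^[a]` is a return map of the disc (displacement at most `ρ/10`).
DSC: if `f^(i+s) = f^i σ` on the disc and `σ` commutes with `g` then `f^(r+s) = f^r σ` on the disc with `r = i mod a`.
-/

set_option autoImplicit false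

open Complex Metric Set Filter Topology

noncomputable section

namespace RNG

/-- a map near the identity on a disc has an image which contains an open part of the disc. -/
theorem DSC_open {g : ℂ → ℂ} {x : ℂ} {ρ : ℝ} (hρ : 0 < ρ) (hg : DifferentiableOn ℂ g (ball x ρ))
    (hn : ∀ z ∈ ball x ρ, ‖g z - z‖ ≤ ρ / 10) :
    ∃ U : Set ℂ, U ⊆ ball x ρ ∧ IsOpen U ∧ U.Nonempty ∧ ∀ p ∈ U, ∃ q ∈ ball x ρ, g q = p := by
  have ha : AnalyticOnNhd ℂ g (ball x ρ) := hg.analyticOnNhd isOpen_ball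
  rcases ha.is_constant_or_isOpen (convex_ball x ρ).isPreconnected with h | h
  · exfalso
    obtain ⟨w, hw⟩ := h
    have hx : x ∈ ball x ρ := mem_ball_self hρ
    have hy : x + ((ρ / 2 : ℝ) : ℂ) ∈ ball x ρ := by
      rw [mem_ball_iff_norm, add_sub_cancel_left, Complex.norm_real, Real.norm_of_nonneg (by positivity)]
      linarith
    have h1 := hn _ hx
    have h2 := hn _ hy
    rw [hw _ hx] at h1
    rw [hw _ hy] at h2
    have h3 : ((ρ / 2 : ℝ) : ℂ) = (w - x) - (w - (x + ((ρ / 2 : ℝ) : ℂ))) := by ring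
    have h4 : ‖((ρ / 2 : ℝ) : ℂ)‖ ≤ ρ / 10 + ρ / 10 := by
      rw [h3]
      exact (norm_sub_le _ _).trans (add_le_add h1 h2)
    rw [Complex.norm_real, Real.norm_of_nonneg (by positivity)] at h4
    linarith
  · have hsub : ball x (ρ / 2) ⊆ ball x ρ := ball_subset_ball (by linarith)
    refine ⟨g '' ball x (ρ / 2), ?_, h _ hsub isOpen_ball, (nonempty_ball.2 (by positivity)).image g, ?_⟩
    · rintro p ⟨q, hq, rfl⟩
      have h1 := hn q (hsub hq)
      rw [mem_ball_iff_norm] at hq ⊢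
      have h2 : g q - x = (g q - q) + (q - x) := by ring
      rw [h2]
      exact (norm_add_le _ _).trans_lt (by linarith)
    · rintro p ⟨q, hq, rfl⟩
      exact ⟨q, hsub hq, rfl⟩

/-- one step of the descent. -/
theorem DSC_step {f σ : ℂ → ℂ} {x : ℂ} {ρ : ℝ} {a i s : ℕ} (hρ : 0 < ρ) (hai : a ≤ i)
    (hga : DifferentiableOn ℂ (f^[a]) (ball x ρ)) (hn : ∀ z ∈ ball x ρ, ‖f^[a] z - z‖ ≤ ρ / 10)
    (h1 : DifferentiableOn ℂ (f^[i - a + s]) (ball x ρ)) (h2 : DifferentiableOn ℂ (fun z => f^[i - a] (σ z)) (ball x ρ))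
    (hcomm : ∀ q ∈ ball x ρ, f^[a] q ∈ ball x ρ → σ (f^[a] q) = f^[a] (σ q))
    (heq : ∀ p ∈ ball x ρ, f^[i + s] p = f^[i] (σ p)) :
    ∀ p ∈ ball x ρ, f^[i - a + s] p = f^[i - a] (σ p) := by
  obtain ⟨U, hU, hUo, ⟨u, hu⟩, hUg⟩ := DSC_open hρ hga hn
  have key : ∀ p ∈ U, f^[i - a + s] p = f^[i - a] (σ p) := by
    intro p hp
    obtain ⟨q, hq, rfl⟩ := hUg p hp
    have e1 : f^[i - a + s] (f^[a] q) = f^[i + s] q := by
      rw [← Function.iterate_add_apply]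
      congr 1
      omega
    have e2 : f^[i - a] (σ (f^[a] q)) = f^[i] (σ q) := by
      rw [hcomm q hq (hU hp), ← Function.iterate_add_apply]
      congr 1
      omega
    rw [e1, e2, heq q hq]
  have ha1 : AnalyticOnNhd ℂ (f^[i - a + s]) (ball x ρ) := h1.analyticOnNhd isOpen_ball
  have ha2 : AnalyticOnNhd ℂ (fun z => f^[i - a] (σ z)) (ball x ρ) := h2.analyticOnNhd isOpen_ball
  have h3 := ha1.eqOn_of_preconnected_of_eventuallyEq ha2 (convex_ball x ρ).isPreconnected (hU hu) (by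
    filter_upwards [hUo.mem_nhds hu] with p hp
    exact key p hp)
  exact fun p hp => h3 hp

/-- **DSC**: descent down to an index smaller than `a`. -/
theorem DSC {f σ : ℂ → ℂ} {x : ℂ} {ρ : ℝ} {a s : ℕ} (hρ : 0 < ρ) (ha : 1 ≤ a)
    (hga : DifferentiableOn ℂ (f^[a]) (ball x ρ)) (hn : ∀ z ∈ ball x ρ, ‖f^[a] z - z‖ ≤ ρ / 10)
    (hcomm : ∀ q ∈ ball x ρ, f^[a] q ∈ ball x ρ → σ (f^[a] q) = f^[a] (σ q)) (i : ℕ)
    (h1 : ∀ j ≤ i, DifferentiableOn ℂ (f^[j + s]) (ball x ρ))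
    (h2 : ∀ j ≤ i, DifferentiableOn ℂ (fun z => f^[j] (σ z)) (ball x ρ))
    (heq : ∀ p ∈ ball x ρ, f^[i + s] p = f^[i] (σ p)) :
    ∀ p ∈ ball x ρ, f^[i % a + s] p = f^[i % a] (σ p) := by
  induction i using Nat.strong_induction_on with
  | _ i ih =>
    by_cases hi : i < a
    · rw [Nat.mod_eq_of_lt hi]; exact heq
    · push Not at hi
      have h3 := DSC_step hρ hi hga hn (h1 (i - a) (by omega)) (h2 (i - a) (by omega)) hcomm heq
      have h4 := ih (i - a) (by omega) (fun j hj => h1 j (by omega)) (fun j hj => h2 j (by omega)) h3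
      have h5 : (i - a) % a = i % a := by
        rw [Nat.mod_eq_sub_mod hi]
      rwa [h5] at h4

/-- **COM**: a relation defined by an injective iterate commutes with the return map. `σ` is defined by `f^i σ = f^(i+s)` on `ball x ρ`, `‖σ z - z‖ ≤ ρ`, and `f^i` is injective on `ball x (4ρ)`. -/
theorem COM {f σ : ℂ → ℂ} {x : ℂ} {ρ : ℝ} {a i s : ℕ} (hρ : 0 < ρ)
    (hn : ∀ z ∈ ball x (2 * ρ), ‖f^[a] z - z‖ ≤ ρ / 10)
    (hσ : ∀ z ∈ ball x ρ, ‖σ z - z‖ ≤ ρ / 2)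
    (hinj : InjOn (f^[i]) (ball x (2 * ρ)))
    (heq : ∀ p ∈ ball x ρ, f^[i + s] p = f^[i] (σ p)) :
    ∀ q ∈ ball x ρ, f^[a] q ∈ ball x ρ → σ (f^[a] q) = f^[a] (σ q) := by
  intro q hq hgq
  have m1 : σ (f^[a] q) ∈ ball x (2 * ρ) := by
    have h1 := hσ _ hgq
    rw [mem_ball_iff_norm] at hgq ⊢
    have h2 : σ (f^[a] q) - x = (σ (f^[a] q) - f^[a] q) + (f^[a] q - x) := by ring
    rw [h2]
    exact (norm_add_le _ _).trans_lt (by linarith)
  have m2 : σ q ∈ ball x (3 / 2 * ρ) := by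
    have h1 := hσ _ hq
    rw [mem_ball_iff_norm] at hq ⊢
    have h2 : σ q - x = (σ q - q) + (q - x) := by ring
    rw [h2]
    exact (norm_add_le _ _).trans_lt (by linarith)
  have m3 : f^[a] (σ q) ∈ ball x (2 * ρ) := by
    have h1 := hn (σ q) (ball_subset_ball (by linarith) m2)
    rw [mem_ball_iff_norm] at m2 ⊢
    have h2 : f^[a] (σ q) - x = (f^[a] (σ q) - σ q) + (σ q - x) := by ring
    rw [h2]
    exact (norm_add_le _ _).trans_lt (by linarith)
  apply hinj m1 m3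
  rw [← heq _ hgq, ← Function.iterate_add_apply, ← Function.iterate_add_apply]
  rw [show i + s + a = a + (i + s) by ring, show i + a = a + i by ring, Function.iterate_add_apply, Function.iterate_add_apply f a i,
    heq q hq]

/-- **NRT** (no new return): `f^i` is injective on `ball x (2ρ)`, `σ` a relation `f^i σ = f^(i+s)` near the identity, `g = f^a` a return map of the disc. Then `f^(r+s) = f^r σ` on `ball x ρ` with `r = i mod a`. -/
theorem NRT {f σ : ℂ → ℂ} {x : ℂ} {ρ : ℝ} {a i s : ℕ} (hρ : 0 < ρ) (ha : 1 ≤ a)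
    (hga : DifferentiableOn ℂ (f^[a]) (ball x (2 * ρ))) (hn : ∀ z ∈ ball x (2 * ρ), ‖f^[a] z - z‖ ≤ ρ / 10)
    (hσd : DifferentiableOn ℂ σ (ball x ρ)) (hσ : ∀ z ∈ ball x ρ, ‖σ z - z‖ ≤ ρ / 2)
    (hinj : InjOn (f^[i]) (ball x (2 * ρ)))
    (h1 : ∀ j ≤ i, DifferentiableOn ℂ (f^[j + s]) (ball x ρ))
    (h2 : ∀ j ≤ i, DifferentiableOn ℂ (f^[j]) (ball x (2 * ρ)))
    (heq : ∀ p ∈ ball x ρ, f^[i + s] p = f^[i] (σ p)) :
    ∀ p ∈ ball x ρ, f^[i % a + s] p = f^[i % a] (σ p) := by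
  have hsub : ball x ρ ⊆ ball x (2 * ρ) := ball_subset_ball (by linarith)
  have hmaps : MapsTo σ (ball x ρ) (ball x (2 * ρ)) := by
    intro q hq
    have h3 := hσ _ hq
    rw [mem_ball_iff_norm] at hq ⊢
    have h4 : σ q - x = (σ q - q) + (q - x) := by ring
    rw [h4]
    exact (norm_add_le _ _).trans_lt (by linarith)
  exact DSC hρ ha (hga.mono hsub) (fun z hz => hn z (hsub hz)) (COM hρ hn hσ hinj heq) i h1
    (fun j hj => (h2 j hj).comp hσd hmaps) heq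

/-- **COMG**: the general commutation: both points lie in a set on which `f^i` is injective. -/
theorem COMG {f σ : ℂ → ℂ} {B : Set ℂ} {q : ℂ} {a i s : ℕ} (hinj : InjOn (f^[i]) B) (m1 : σ (f^[a] q) ∈ B) (m2 : f^[a] (σ q) ∈ B)
    (h1 : f^[i + s] q = f^[i] (σ q)) (h2 : f^[i + s] (f^[a] q) = f^[i] (σ (f^[a] q))) : σ (f^[a] q) = f^[a] (σ q) := by
  apply hinj m1 m2
  rw [← h2, ← Function.iterate_add_apply, ← Function.iterate_add_apply]
  rw [show i + s + a = a + (i + s) by ring, show i + a = a + i by ring, Function.iterate_add_apply, Function.iterate_add_apply f a i,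
    h1]

/-- **AFFC**: a relation near the affine map `α z + β` which commutes at `q` with a return near the translation by `w` has `(1 - α) w` small. -/
theorem AFFC {g σ : ℂ → ℂ} {q w α β : ℂ} {η : ℝ} (hc : σ (g q) = g (σ q)) (h1 : ‖g q - q - w‖ ≤ η) (h2 : ‖g (σ q) - σ q - w‖ ≤ η)
    (h3 : ‖σ q - (α * q + β)‖ ≤ η) (h4 : ‖σ (g q) - (α * g q + β)‖ ≤ η) : ‖(1 - α) * w‖ ≤ (3 + ‖α‖) * η := by
  have e : (1 - α) * w = (σ (g q) - (α * g q + β)) - (g (σ q) - σ q - w) - (σ q - (α * q + β)) + α * (g q - q - w) := by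
    rw [hc]; ring
  rw [e]
  have h5 : ‖α * (g q - q - w)‖ ≤ ‖α‖ * η := by
    rw [norm_mul]; exact mul_le_mul_of_nonneg_left h1 (norm_nonneg _)
  calc ‖(σ (g q) - (α * g q + β)) - (g (σ q) - σ q - w) - (σ q - (α * q + β)) + α * (g q - q - w)‖
      ≤ ‖(σ (g q) - (α * g q + β)) - (g (σ q) - σ q - w) - (σ q - (α * q + β))‖ + ‖α * (g q - q - w)‖ := norm_add_le _ _
    _ ≤ (‖(σ (g q) - (α * g q + β)) - (g (σ q) - σ q - w)‖ + ‖σ q - (α * q + β)‖) + ‖α * (g q - q - w)‖ := by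
        gcongr; exact norm_sub_le _ _
    _ ≤ ((‖σ (g q) - (α * g q + β)‖ + ‖g (σ q) - σ q - w‖) + ‖σ q - (α * q + β)‖) + ‖α * (g q - q - w)‖ := by
        gcongr; exact norm_sub_le _ _
    _ ≤ _ := by linarith

/-- **GTR** (no relation): `σ` is near the translation by `b` on `ball x ρ`, `f^i` is injective on `ball (x + b) (2ρ)`, and `f^i σ = f^(i+s)`. Then `f^(r+s) = f^r σ` on `ball x ρ` with `r = i mod a`. -/
theorem GTR {f σ : ℂ → ℂ} {x b : ℂ} {ρ : ℝ} {a i s : ℕ} (hρ : 0 < ρ) (ha : 1 ≤ a)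
    (hga : DifferentiableOn ℂ (f^[a]) (ball x ρ)) (hn : ∀ z ∈ ball x ρ, ‖f^[a] z - z‖ ≤ ρ / 10)
    (hn2 : ∀ z ∈ ball (x + b) (2 * ρ), ‖f^[a] z - z‖ ≤ ρ / 10)
    (hσd : DifferentiableOn ℂ σ (ball x ρ)) (hσ : ∀ z ∈ ball x ρ, ‖σ z - z - b‖ ≤ ρ / 2)
    (hinj : InjOn (f^[i]) (ball (x + b) (2 * ρ)))
    (h1 : ∀ j ≤ i, DifferentiableOn ℂ (f^[j + s]) (ball x ρ))
    (h2 : ∀ j ≤ i, DifferentiableOn ℂ (f^[j]) (ball (x + b) (2 * ρ)))
    (heq : ∀ p ∈ ball x ρ, f^[i + s] p = f^[i] (σ p)) :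
    ∀ p ∈ ball x ρ, f^[i % a + s] p = f^[i % a] (σ p) := by
  have hmap : ∀ q ∈ ball x ρ, σ q ∈ ball (x + b) (3 / 2 * ρ) := by
    intro q hq
    have h3 := hσ _ hq
    rw [mem_ball_iff_norm] at hq ⊢
    have h4 : σ q - (x + b) = (σ q - q - b) + (q - x) := by ring
    rw [h4]
    exact (norm_add_le _ _).trans_lt (by linarith)
  have hmaps : MapsTo σ (ball x ρ) (ball (x + b) (2 * ρ)) := fun q hq => ball_subset_ball (by linarith) (hmap q hq)
  refine DSC hρ ha hga hn ?_ i h1 (fun j hj => (h2 j hj).comp hσd hmaps) heq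
  intro q hq hgq
  refine COMG hinj (hmaps hgq) ?_ (heq q hq) (heq _ hgq)
  have h3 := hn2 _ (hmaps hq)
  have h5 := hmap q hq
  rw [mem_ball_iff_norm] at h5 ⊢
  have h4 : f^[a] (σ q) - (x + b) = (f^[a] (σ q) - σ q) + (σ q - (x + b)) := by ring
  rw [h4]
  exact (norm_add_le _ _).trans_lt (by linarith)

end RNG
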